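import Mathlib
import Pool.Agent.Work.MP_d3656f_al.Defs

/-!
# M/Min : basic facts on the form `Q`

Everything is elementary real algebra.
* `Q_sq_ge`: for `x, y ∈ Cone` one has `Q x x * Q y y ≤ (Q x y)^2` and `0 ≤ Q x y`.
  Write `x' = (x 0, x 1)`, `|x'| ≤ x 2`, `|y'| ≤ y 2`. Then `Q x y ≥ x 2 * y 2 - |x'||y'| ≥ 0` and
  `(x2 y2 - |x'||y'|)^2 - (x2^2 - |x'|^2)(y2^2 - |y'|^2) = (x2 |y'| - y2 |x'|)^2 ≥ 0`.
* `Q_perp`: if `w ∈ Cone` and `Q w v = 0` then `Q v v ≤ 0`: `w2 v2 = w'·v'`, so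
  `(w2 v2)^2 ≤ |w'|^2 |v'|^2 ≤ w2^2 |v'|^2`, hence `v2^2 ≤ |v'|^2`.
* `Q_hyp_eq`: in the formula for `Q_sq_ge` equality gives `x2 |y'| = y2 |x'|` and parallel
  `x', y'` of the same direction; simplest: `x - y` satisfies
  `Q (x - y) (x - y) = 2 - 2 Q x y = 0` and `Q (x + y) (x - y) = 0` with `x + y` timelike; a vector
  orthogonal to a timelike vector `w` with `Q v v = 0` is `0`
  (`w2 v2 = w'·v'` gives `w2^2 v2^2 ≤ |w'|^2 |v'|^2 = |w'|^2 v2^2`, `|w'| < w2`, so `v2 = 0`).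
* `Q_bd`: for `x, y ∈ Bd`, `Q x y = 1 - x'·y' = |x' - y'|^2 / 2`.
-/

set_option autoImplicit false

namespace Pool.Agent.Work.MP_d3656f_al

theorem Q_symm (x y : V) : Q x y = Q y x := by
  unfold Q; ring

theorem Q_add_left (x y z : V) : Q (x + y) z = Q x z + Q y z := by
  simp only [Q, Pi.add_apply]; ring

theorem Q_add_right (x y z : V) : Q x (y + z) = Q x y + Q x z := by
  simp only [Q, Pi.add_apply]; ring

theorem Q_sub_left (x y z : V) : Q (x - y) z = Q x z - Q y z := by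
  simp only [Q, Pi.sub_apply]; ring

theorem Q_sub_right (x y z : V) : Q x (y - z) = Q x y - Q x z := by
  simp only [Q, Pi.sub_apply]; ring

theorem Q_smul_left (t : ℝ) (x y : V) : Q (t • x) y = t * Q x y := by
  simp only [Q, Pi.smul_apply, smul_eq_mul]; ring

theorem Q_smul_right (t : ℝ) (x y : V) : Q x (t • y) = t * Q x y := by
  simp only [Q, Pi.smul_apply, smul_eq_mul]; ring

theorem Q_base_left (x : V) : Q base x = x 2 := by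
  simp [Q, base]

theorem Q_base_right (x : V) : Q x base = x 2 := by
  simp [Q, base]

theorem hyp_cone {x : V} (hx : x ∈ Hyp) : x ∈ Cone := by
  obtain ⟨h1, h2⟩ := hx
  exact ⟨by rw [h1]; norm_num, h2⟩

theorem bd_cone {x : V} (hx : x ∈ Bd) : x ∈ Cone := by
  obtain ⟨h1, h2⟩ := hx
  exact ⟨by rw [h1], by rw [h2]; norm_num⟩

theorem base_hyp : base ∈ Hyp := by
  constructor
  · rw [Q_base_left]; simp [base]
  · simp [base]

theorem cone_smul {x : V} (hx : x ∈ Cone) {t : ℝ} (ht : 0 < t) : t • x ∈ Cone := by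
  obtain ⟨h1, h2⟩ := hx
  constructor
  · rw [Q_smul_left, Q_smul_right]
    positivity
  · simp only [Pi.smul_apply, smul_eq_mul]
    positivity

private theorem cs (a b c d : ℝ) : (a * c + b * d) ^ 2 ≤ (a ^ 2 + b ^ 2) * (c ^ 2 + d ^ 2) := by
  nlinarith [sq_nonneg (a * d - b * c)]

theorem Q_nonneg {x y : V} (hx : x ∈ Cone) (hy : y ∈ Cone) : 0 ≤ Q x y := by
  obtain ⟨h1, h2⟩ := hx
  obtain ⟨h3, h4⟩ := hy
  unfold Q at h1 h3 ⊢
  have h5 : (x 0 * y 0 + x 1 * y 1) ^ 2 ≤ (x 2 * y 2) ^ 2 := by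
    have := cs (x 0) (x 1) (y 0) (y 1)
    have h6 : (x 0 ^ 2 + x 1 ^ 2) * (y 0 ^ 2 + y 1 ^ 2) ≤ x 2 ^ 2 * y 2 ^ 2 :=
      mul_le_mul (by nlinarith) (by nlinarith) (by positivity) (by positivity)
    calc _ ≤ _ := this
      _ ≤ _ := h6
      _ = _ := by ring
  have := abs_le_of_sq_le_sq' h5 (by positivity)
  linarith [this.2]

theorem cone_add {x y : V} (hx : x ∈ Cone) (hy : y ∈ Cone) : x + y ∈ Cone := by
  have h := Q_nonneg hx hy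
  obtain ⟨h1, h2⟩ := hx
  obtain ⟨h3, h4⟩ := hy
  constructor
  · rw [Q_add_left, Q_add_right, Q_add_right, Q_symm y x]
    linarith
  · simp only [Pi.add_apply]
    linarith

theorem Q_sq_ge {x y : V} (hx : x ∈ Cone) (hy : y ∈ Cone) : Q x x * Q y y ≤ (Q x y) ^ 2 := by
  obtain ⟨h1, h2⟩ := hx
  unfold Q at h1 ⊢
  have hw := cs (x 0) (- x 1) (x 2 * y 1 - y 2 * x 1) (x 2 * y 0 - y 2 * x 0)
  have h3 : (x 0 ^ 2 + (- x 1) ^ 2) * ((x 2 * y 1 - y 2 * x 1) ^ 2 + (x 2 * y 0 - y 2 * x 0) ^ 2)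
      ≤ x 2 ^ 2 * ((x 2 * y 1 - y 2 * x 1) ^ 2 + (x 2 * y 0 - y 2 * x 0) ^ 2) :=
    mul_le_mul_of_nonneg_right (by nlinarith) (by positivity)
  have h4 : x 2 ^ 2 * (x 0 * y 1 - x 1 * y 0) ^ 2 ≤
      x 2 ^ 2 * ((x 2 * y 1 - y 2 * x 1) ^ 2 + (x 2 * y 0 - y 2 * x 0) ^ 2) := by
    calc _ = (x 0 * (x 2 * y 1 - y 2 * x 1) + - x 1 * (x 2 * y 0 - y 2 * x 0)) ^ 2 := by ring
      _ ≤ _ := hw
      _ ≤ _ := h3
  have h5 := le_of_mul_le_mul_left h4 (by positivity)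
  nlinarith

theorem Q_pos {x y : V} (hx : x ∈ Cone) (hxx : 0 < Q x x) (hy : y ∈ Cone) : 0 < Q x y := by
  obtain ⟨h1, h2⟩ := hx
  obtain ⟨h3, h4⟩ := hy
  unfold Q at hxx h3 ⊢
  have h5 : (x 0 * y 0 + x 1 * y 1) ^ 2 < (x 2 * y 2) ^ 2 := by
    have := cs (x 0) (x 1) (y 0) (y 1)
    have h6 : (x 0 ^ 2 + x 1 ^ 2) * (y 0 ^ 2 + y 1 ^ 2) ≤ (x 0 ^ 2 + x 1 ^ 2) * y 2 ^ 2 :=
      mul_le_mul_of_nonneg_left (by nlinarith) (by positivity)
    have h7 : (x 0 ^ 2 + x 1 ^ 2) * y 2 ^ 2 < x 2 ^ 2 * y 2 ^ 2 :=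
      mul_lt_mul_of_pos_right (by nlinarith) (by positivity)
    calc _ ≤ _ := this
      _ ≤ _ := h6
      _ < _ := h7
      _ = _ := by ring
  have := abs_lt_of_sq_lt_sq' h5 (by positivity)
  linarith [this.2]

theorem Q_pos_hyp {x y : V} (hx : x ∈ Hyp) (hy : y ∈ Cone) : 0 < Q x y :=
  Q_pos (hyp_cone hx) (by rw [hx.1]; norm_num) hy

theorem Q_one_le {x y : V} (hx : x ∈ Hyp) (hy : y ∈ Hyp) : 1 ≤ Q x y := by
  have h1 := Q_sq_ge (hyp_cone hx) (hyp_cone hy)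
  have h2 := Q_pos_hyp hx (hyp_cone hy)
  rw [hx.1, hy.1] at h1
  nlinarith

private theorem perp_zero {w v : V} (hw : w ∈ Cone) (hww : 0 < Q w w) (h : Q w v = 0)
    (hv : Q v v = 0) : v = 0 := by
  unfold Q at h hv hww
  have h1 := cs (w 0) (w 1) (v 0) (v 1)
  have h2 : v 2 ^ 2 * (w 2 ^ 2 - w 0 ^ 2 - w 1 ^ 2) ≤ 0 := by
    have e1 : w 0 * v 0 + w 1 * v 1 = w 2 * v 2 := by linarith
    have e2 : v 0 ^ 2 + v 1 ^ 2 = v 2 ^ 2 := by nlinarith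
    rw [e1, e2] at h1
    nlinarith
  have h3 : v 2 = 0 := by
    by_contra hne
    have : 0 < v 2 ^ 2 := by positivity
    nlinarith
  have h4 : v 0 ^ 2 + v 1 ^ 2 = 0 := by rw [h3] at hv; nlinarith
  have h5 : v 0 = 0 := by nlinarith [sq_nonneg (v 0), sq_nonneg (v 1)]
  have h6 : v 1 = 0 := by nlinarith [sq_nonneg (v 0), sq_nonneg (v 1)]
  ext i
  fin_cases i
  · exact h5
  · exact h6
  · exact h3

theorem Q_hyp_eq {x y : V} (hx : x ∈ Hyp) (hy : y ∈ Hyp) (h : Q x y = 1) : x = y := by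
  have h1 : x - y = 0 := by
    refine perp_zero (w := x + y) (cone_add (hyp_cone hx) (hyp_cone hy)) ?_ ?_ ?_
    · rw [Q_add_left, Q_add_right, Q_add_right, Q_symm y x, hx.1, hy.1, h]
      norm_num
    · rw [Q_add_left, Q_sub_right, Q_sub_right, Q_symm y x, hx.1, hy.1]
      ring
    · rw [Q_sub_left, Q_sub_right, Q_sub_right, Q_symm y x, hx.1, hy.1, h]
      ring
  exact sub_eq_zero.1 h1

theorem Q_perp {w v : V} (hw : w ∈ Cone) (h : Q w v = 0) : Q v v ≤ 0 := by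
  obtain ⟨h1, h2⟩ := hw
  unfold Q at h h1 ⊢
  have h3 := cs (w 0) (w 1) (v 0) (v 1)
  have e1 : w 0 * v 0 + w 1 * v 1 = w 2 * v 2 := by linarith
  rw [e1] at h3
  have h4 : (w 0 ^ 2 + w 1 ^ 2) * (v 0 ^ 2 + v 1 ^ 2) ≤ w 2 ^ 2 * (v 0 ^ 2 + v 1 ^ 2) :=
    mul_le_mul_of_nonneg_right (by nlinarith) (by positivity)
  have h5 : w 2 ^ 2 * v 2 ^ 2 ≤ w 2 ^ 2 * (v 0 ^ 2 + v 1 ^ 2) := by
    calc _ = (w 2 * v 2) ^ 2 := by ring
      _ ≤ _ := h3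
      _ ≤ _ := h4
  have h6 := le_of_mul_le_mul_left h5 (by positivity)
  nlinarith

theorem Q_bd {x y : V} (hx : x ∈ Bd) (hy : y ∈ Bd) :
    Q x y = ((x 0 - y 0) ^ 2 + (x 1 - y 1) ^ 2) / 2 := by
  obtain ⟨h1, h2⟩ := hx
  obtain ⟨h3, h4⟩ := hy
  unfold Q at h1 h3 ⊢
  rw [h2] at h1 ⊢
  rw [h4] at h3 ⊢
  nlinarith

theorem Q_bd_le {x y : V} (hx : x ∈ Bd) (hy : y ∈ Bd) : Q x y ≤ 2 := by
  obtain ⟨h1, h2⟩ := hx
  obtain ⟨h3, h4⟩ := hy
  unfold Q at h1 h3 ⊢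
  rw [h2] at h1 ⊢
  rw [h4] at h3 ⊢
  nlinarith [sq_nonneg (x 0 + y 0), sq_nonneg (x 1 + y 1)]

theorem bd_eq {x y : V} (hx : x ∈ Bd) (hy : y ∈ Bd) (h : Q x y = 0) : x = y := by
  rw [Q_bd hx hy] at h
  have h5 : x 0 - y 0 = 0 := by nlinarith [sq_nonneg (x 0 - y 0), sq_nonneg (x 1 - y 1)]
  have h6 : x 1 - y 1 = 0 := by nlinarith [sq_nonneg (x 0 - y 0), sq_nonneg (x 1 - y 1)]
  ext i
  fin_cases i
  · exact sub_eq_zero.1 h5
  · exact sub_eq_zero.1 h6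
  · exact hx.2.trans hy.2.symm

theorem Q_bd_pos {x y : V} (hx : x ∈ Bd) (hy : y ∈ Bd) (h : x ≠ y) : 0 < Q x y :=
  lt_of_le_of_ne (Q_nonneg (bd_cone hx) (bd_cone hy)) fun e => h (bd_eq hx hy e.symm)

theorem nrm_bd {x : V} (hx : x ∈ Bd) : nrm x = x := by
  unfold nrm
  rw [hx.2, inv_one, one_smul]

theorem nrm_two {x : V} (h2 : 0 < x 2) : (nrm x) 2 = 1 := by
  unfold nrm
  simp only [Pi.smul_apply, smul_eq_mul]
  exact inv_mul_cancel₀ h2.ne'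

theorem nrm_mem {x : V} (h0 : Q x x = 0) (h2 : 0 < x 2) : nrm x ∈ Bd := by
  refine ⟨?_, nrm_two h2⟩
  unfold nrm
  rw [Q_smul_left, Q_smul_right, h0, mul_zero, mul_zero]

theorem nrm_smul {x : V} {t : ℝ} (ht : 0 < t) : nrm (t • x) = nrm x := by
  unfold nrm
  simp only [Pi.smul_apply, smul_eq_mul]
  rw [smul_smul, mul_inv, mul_comm t⁻¹, mul_assoc, inv_mul_cancel₀ ht.ne', mul_one]

theorem nrm_cone {x : V} (hx : x ∈ Cone) : nrm x ∈ Cone := by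
  have h2 := hx.2
  exact cone_smul hx (by positivity)

/-- Two vectors of the closed cone of time coordinate `1`: `Q` bounds the distance. -/
theorem Q_dist {x y : V} (hx : x ∈ Cone) (hy : y ∈ Cone) (h1 : x 2 = 1) (h2 : y 2 = 1) :
    (x 0 - y 0) ^ 2 + (x 1 - y 1) ^ 2 ≤ 2 * Q x y := by
  have h3 := hx.1
  have h4 := hy.1
  unfold Q at h3 h4 ⊢
  rw [h1] at h3 ⊢
  rw [h2] at h4 ⊢
  nlinarith

theorem Bt_smul_right {C : ℝ} {x z y : V} {t : ℝ} (ht : 0 < t) :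
    Bt C x z (t • y) ↔ Bt C x z y := by
  unfold Bt
  rw [Q_smul_right, Q_smul_right]
  constructor
  · intro h
    have : t * (Q x z * Q z y) ≤ t * (C * Q x y) := by linarith
    exact le_of_mul_le_mul_left this ht
  · intro h
    have := mul_le_mul_of_nonneg_left h ht.le
    linarith

theorem Bt_symm {C : ℝ} {x z y : V} : Bt C x z y ↔ Bt C y z x := by
  unfold Bt
  rw [Q_symm x z, Q_symm z y, Q_symm x y, mul_comm]

theorem Bt_smul_left {C : ℝ} {x z y : V} {t : ℝ} (ht : 0 < t) :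
    Bt C (t • x) z y ↔ Bt C x z y := by
  rw [Bt_symm, Bt_smul_right ht, Bt_symm]

theorem Bt_mono {C C' : ℝ} {x z y : V} (hC : C ≤ C') (hx : x ∈ Cone) (hy : y ∈ Cone)
    (h : Bt C x z y) : Bt C' x z y :=
  h.trans (mul_le_mul_of_nonneg_right hC (Q_nonneg hx hy))

end Pool.Agent.Work.MP_d3656f_al
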