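import Mathlib
import Pool.Agent.Work.MP_d3656f_al.M.Min

/-!
# M/Ptol : the Ptolemy inequality on the closed future cone

`ptolemy`: for `x y z w ∈ Cone`, `√(Q x y * Q z w) ≤ √(Q x z * Q y w) + √(Q x w * Q y z)`.
Proof. If one of `Q w x, Q w y, Q w z` is `0`, say `Q w x = 0` with `w, x ∈ Cone`: then
`Q w w = Q x x = 0` (by `Q_sq_ge`, `Q_pos`) and `x = t • w` with `t > 0` (equality case of
Cauchy-Schwarz), and the inequality reads `√(t Q w y Q z w) ≤ √(t Q w z Q y w) + 0`, an equality;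
the cases `Q w y = 0` (same by symmetry), `Q w z = 0` (then the left side is `0`) are similar.
Otherwise put `x̂ = x / Q w x`, `ŷ = y / Q w y`,
`ẑ = z / Q w z`; the claim becomes `√(Q x̂ ŷ) ≤ √(Q x̂ ẑ) + √(Q ŷ ẑ)` (indeed
`Q x y * Q z w = Q x̂ ŷ * (Q w x Q w y Q w z)`, `Q x z * Q y w = Q x̂ ẑ * (Q w x Q w y Q w z)`,
`Q x w * Q y z = Q ŷ ẑ * (Q w x Q w y Q w z)`). Now
`2 Q x̂ ŷ = a + b + N (x̂ - ŷ)` with `a = Q x̂ x̂ ≥ 0`, `b = Q ŷ ŷ ≥ 0`, `c = Q ẑ ẑ ≥ 0` and
`N v = - Q v v`, where `x̂ - ŷ, x̂ - ẑ, ẑ - ŷ` are `Q`-orthogonal to `w`; by `Q_perp` the form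
`N` is positive semidefinite on the orthogonal space of `w`, hence `√N` is a seminorm there.
So with `p = √(N (x̂ - ẑ))`, `r = √(N (ẑ - ŷ))`, `s = √(N (x̂ - ŷ)) ≤ p + r`:
`√(a + c + p^2) + √(b + c + r^2) ≥ √(a + p^2) + √(b + r^2) ≥ √((√a + √b)^2 + (p + r)^2)
≥ √(a + b + s^2)` (Minkowski inequality in the plane for the second step). Multiply by `1/√2`.

Consequences.
* `Q_tri`: put `w = y` in `ptolemy x z y y`: `√(Q x z * 1) ≤ 2 √(Q x y * Q z y)`.
* `del_tri`: divide `ptolemy (x:=x) (y:=y) (z:=z) (w:=v)` by `√(Q v x Q v y Q v z)`.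
* `del_le`: `Q x y ≤ 4 Q x v Q v y` gives `del v x y ≤ 2`.
* `ratio`: if `Bt C x p y`, `Bt C x q y` (with `x, p, q ∈ Hyp`, `y ∈ Cone`) and
  `Q x p ≤ r Q x q`, `Q x q ≤ r Q x p` then `Q p q ≤ 4 C r`.
  `√(Q p q * Q x y) ≤ √(Q p x * Q q y) + √(Q p y * Q q x)`, `Q q y ≤ C Q x y / Q x q`,
  `Q p y ≤ C Q x y / Q x p`, so the right side is at most `2 √(C r Q x y)`.
* `shadow`: if `Bt C v z x` and `Bt C v z y` (`v, z ∈ Hyp`) then
  `Q x y * (Q v z)^2 ≤ 4 C * (Q v x * Q v y)`: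
  `√(Q x y Q v z) ≤ √(Q x v Q y z) + √(Q x z Q y v) ≤ 2 √(C Q v x Q v y / Q v z)`.
* `shadow_conv`: if `Bt C v z x` and `Q x y * (Q v z)^2 ≤ C * (Q v x * Q v y)` then
  `Bt (4 C) v z y`: `Bt C v z x` says `del v z x ≤ √C / Q v z`, the second hypothesis says
  `del v x y ≤ √C / Q v z`; `del_tri`.
* `Bt_move`: `Bt C x z y` with `x, x', z, z' ∈ Hyp`, `Q x x' ≤ r`, `Q z z' ≤ r`, `y ∈ Cone` gives
  `Bt (256 r^4 * C) x' z' y`: `Q x' z' ≤ 16 r^2 Q x z`, `Q z' y ≤ 4 r Q z y`,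
  `Q x y ≤ 4 r Q x' y`; so the constant `16 r^2 * 4 r * C * 4 r` (note `0 ≤ C` follows from `h`).
-/

set_option autoImplicit false

namespace Pool.Agent.Work.MP_d3656f_al

private theorem cs_perp {w u v : V} (hw : w ∈ Cone) (hu : Q w u = 0) (hv : Q w v = 0) :
    (Q u v) ^ 2 ≤ Q u u * Q v v := by
  have hP : ∀ r s : ℝ, r ^ 2 * Q u u + 2 * (r * s) * Q u v + s ^ 2 * Q v v ≤ 0 := by
    intro r s
    have h := Q_perp (w := w) (v := r • u + s • v) hw (by
      rw [Q_add_right, Q_smul_right, Q_smul_right, hu, hv]; ring)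
    simp only [Q_add_left, Q_add_right, Q_smul_left, Q_smul_right, Q_symm v u] at h
    linarith
  have hu0 : Q u u ≤ 0 := Q_perp hw hu
  have hv0 : Q v v ≤ 0 := Q_perp hw hv
  rcases eq_or_lt_of_le hu0 with h0 | h0
  · -- Q u u = 0
    have h1 := hP (1 - Q v v) (Q u v)
    have h2 := hP (-(1 - Q v v)) (Q u v)
    rw [h0] at h1 h2 ⊢
    have h3 := hP (-(Q v v - 1)) (Q u v)
    rw [h0] at h3
    nlinarith [sq_nonneg (Q u v)]
  · have h1 := hP (Q u v) (-(Q u u))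
    nlinarith

private theorem core {w X Y Z : V} (hw : w ∈ Cone) (hX : X ∈ Cone) (hY : Y ∈ Cone)
    (hZ : Z ∈ Cone) (h1 : Q w X = Q w Z) (h2 : Q w Z = Q w Y) :
    Real.sqrt (Q X Y) ≤ Real.sqrt (Q X Z) + Real.sqrt (Q Z Y) := by
  have hu : Q w (X - Z) = 0 := by rw [Q_sub_right]; linarith
  have hv : Q w (Z - Y) = 0 := by rw [Q_sub_right]; linarith
  have hcs := cs_perp hw hu hv
  have hpu := Q_perp hw hu
  have hpv := Q_perp hw hv
  have eu : Q (X - Z) (X - Z) = Q X X - 2 * Q X Z + Q Z Z := by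
    rw [Q_sub_left, Q_sub_right, Q_sub_right, Q_symm Z X]; ring
  have ev : Q (Z - Y) (Z - Y) = Q Z Z - 2 * Q Z Y + Q Y Y := by
    rw [Q_sub_left, Q_sub_right, Q_sub_right, Q_symm Y Z]; ring
  have es : Q (X - Z) (Z - Y) = Q X Z - Q X Y - Q Z Z + Q Z Y := by
    rw [Q_sub_left, Q_sub_right, Q_sub_right]; ring
  have hXX := hX.1
  have hYY := hY.1
  have hZZ := hZ.1
  have hXZ := Q_nonneg hX hZ
  have hZY := Q_nonneg hZ hY
  have hXY := Q_nonneg hX hY
  have hP := Real.sqrt_nonneg (Q X Z)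
  have hR := Real.sqrt_nonneg (Q Z Y)
  have eP := Real.mul_self_sqrt hXZ
  have eR := Real.mul_self_sqrt hZY
  have key : |Q (X - Z) (Z - Y)| ≤ 2 * (Real.sqrt (Q X Z) * Real.sqrt (Q Z Y)) := by
    apply abs_le_of_sq_le_sq _ (by positivity)
    have e1 : (2 * (Real.sqrt (Q X Z) * Real.sqrt (Q Z Y))) ^ 2 = 4 * (Q X Z * Q Z Y) := by
      calc _ = 4 * ((Real.sqrt (Q X Z) * Real.sqrt (Q X Z)) *
          (Real.sqrt (Q Z Y) * Real.sqrt (Q Z Y))) := by ring
        _ = _ := by rw [eP, eR]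
    rw [e1]
    refine hcs.trans ?_
    have e2 : Q (X - Z) (X - Z) * Q (Z - Y) (Z - Y)
        = (- Q (X - Z) (X - Z)) * (- Q (Z - Y) (Z - Y)) := by ring
    rw [e2]
    have e3 : - Q (X - Z) (X - Z) ≤ 2 * Q X Z := by rw [eu]; linarith
    have e4 : - Q (Z - Y) (Z - Y) ≤ 2 * Q Z Y := by rw [ev]; linarith
    calc _ ≤ (2 * Q X Z) * (2 * Q Z Y) :=
          mul_le_mul e3 e4 (by linarith) (by linarith)
      _ = _ := by ring
  have key2 := (abs_le.1 key).1
  rw [es] at key2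
  rw [Real.sqrt_le_left (by positivity)]
  nlinarith

private theorem prop_of_null {w x : V} (hw : w ∈ Cone) (hx : x ∈ Cone) (h : Q w x = 0) :
    ∃ t : ℝ, 0 < t ∧ x = t • w := by
  have hww : Q w w = 0 := by
    rcases eq_or_lt_of_le hw.1 with h1 | h1
    · exact h1.symm
    · exact absurd h (Q_pos hw h1 hx).ne'
  have hxx : Q x x = 0 := by
    rcases eq_or_lt_of_le hx.1 with h1 | h1
    · exact h1.symm
    · rw [Q_symm] at h
      exact absurd h (Q_pos hx h1 hw).ne'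
  have hw2 := hw.2
  have hx2 := hx.2
  refine ⟨x 2 / w 2, by positivity, ?_⟩
  have h2 : Q (x - (x 2 / w 2) • w) (x - (x 2 / w 2) • w) = 0 := by
    simp only [Q_sub_left, Q_sub_right, Q_smul_left, Q_smul_right, Q_symm x w, h, hww, hxx]
    ring
  have h3 : (x - (x 2 / w 2) • w) 2 = 0 := by
    simp only [Pi.sub_apply, Pi.smul_apply, smul_eq_mul]
    field_simp
    ring
  have h4 : x - (x 2 / w 2) • w = 0 := by
    generalize x - (x 2 / w 2) • w = v at h2 h3
    unfold Q at h2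
    rw [h3] at h2
    have h5 : v 0 = 0 := by nlinarith [sq_nonneg (v 0), sq_nonneg (v 1)]
    have h6 : v 1 = 0 := by nlinarith [sq_nonneg (v 0), sq_nonneg (v 1)]
    ext i
    fin_cases i
    · exact h5
    · exact h6
    · exact h3
  exact sub_eq_zero.1 h4

theorem ptolemy {x y z w : V} (hx : x ∈ Cone) (hy : y ∈ Cone) (hz : z ∈ Cone) (hw : w ∈ Cone) :
    Real.sqrt (Q x y * Q z w) ≤ Real.sqrt (Q x z * Q y w) + Real.sqrt (Q x w * Q y z) := by
  have ha := Q_nonneg hw hx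
  have hb := Q_nonneg hw hy
  have hc := Q_nonneg hw hz
  rcases eq_or_lt_of_le hc with h0 | hc
  · rw [Q_symm z w, ← h0, mul_zero, Real.sqrt_zero]
    positivity
  rcases eq_or_lt_of_le ha with h0 | ha
  · obtain ⟨t, ht, rfl⟩ := prop_of_null hw hx h0.symm
    simp only [Q_smul_left]
    rw [Q_symm z w, Q_symm y w]
    have : t * Q w y * Q w z = t * Q w z * Q w y := by ring
    rw [this]
    have := Real.sqrt_nonneg (t * Q w w * Q y z)
    linarith
  rcases eq_or_lt_of_le hb with h0 | hb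
  · obtain ⟨t, ht, rfl⟩ := prop_of_null hw hy h0.symm
    simp only [Q_smul_left, Q_smul_right]
    rw [Q_symm z w]
    have : t * Q x w * Q w z = Q x w * (t * Q w z) := by ring
    rw [this]
    have := Real.sqrt_nonneg (Q x z * (t * Q w w))
    linarith
  set a := Q w x with hadef
  set b := Q w y with hbdef
  set c := Q w z with hcdef
  have hX : (b * c) • x ∈ Cone := cone_smul hx (by positivity)
  have hY : (a * c) • y ∈ Cone := cone_smul hy (by positivity)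
  have hZ : (a * b) • z ∈ Cone := cone_smul hz (by positivity)
  have h := core hw hX hY hZ (by rw [Q_smul_right, Q_smul_right, ← hadef, ← hcdef]; ring)
    (by rw [Q_smul_right, Q_smul_right, ← hbdef, ← hcdef]; ring)
  simp only [Q_smul_left, Q_smul_right] at h
  rw [Q_symm z w, Q_symm y w, Q_symm x w, ← hadef, ← hbdef, ← hcdef]
  have hs : 0 < Real.sqrt (a * b * c) := Real.sqrt_pos.2 (by positivity)
  have e1 : a * c * (b * c * Q x y) = (a * b * c) * (Q x y * c) := by ring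
  have e2 : a * b * (b * c * Q x z) = (a * b * c) * (Q x z * b) := by ring
  have e3 : a * c * (a * b * Q z y) = (a * b * c) * (a * Q y z) := by rw [Q_symm z y]; ring
  have habc : 0 ≤ a * b * c := by positivity
  rw [e1, e2, e3, Real.sqrt_mul habc (Q x y * c), Real.sqrt_mul habc (Q x z * b),
    Real.sqrt_mul habc (a * Q y z), ← mul_add] at h
  exact le_of_mul_le_mul_left h hs

theorem Q_tri {x y z : V} (hx : x ∈ Cone) (hy : y ∈ Hyp) (hz : z ∈ Cone) :
    Q x z ≤ 4 * (Q x y * Q y z) := by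
  have h := ptolemy hx hz (hyp_cone hy) (hyp_cone hy)
  rw [hy.1, mul_one, Q_symm z y] at h
  have h1 := Q_nonneg hx (hyp_cone hy)
  have h2 := Q_nonneg (hyp_cone hy) hz
  have h3 := Q_nonneg hx hz
  have h4 := Real.sqrt_nonneg (Q x y * Q y z)
  have e := Real.mul_self_sqrt (mul_nonneg h1 h2)
  have h5 : Real.sqrt (Q x z) ≤ 2 * Real.sqrt (Q x y * Q y z) := by linarith
  rw [Real.sqrt_le_left (by positivity)] at h5
  nlinarith

theorem del_symm (v x y : V) : del v x y = del v y x := by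
  unfold del
  rw [Q_symm x y, mul_comm (Q v x)]

theorem del_tri {v x y z : V} (hv : v ∈ Hyp) (hx : x ∈ Cone) (hy : y ∈ Cone) (hz : z ∈ Cone) :
    del v x y ≤ del v x z + del v z y := by
  have h := ptolemy hx hy hz (hyp_cone hv)
  have ha := Q_pos_hyp hv hx
  have hb := Q_pos_hyp hv hy
  have hc := Q_pos_hyp hv hz
  unfold del
  have hs : 0 < Real.sqrt (Q v x * Q v y * Q v z) := Real.sqrt_pos.2 (by positivity)
  refine le_of_mul_le_mul_left ?_ hs
  rw [mul_add, ← Real.sqrt_mul (by positivity), ← Real.sqrt_mul (by positivity),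
    ← Real.sqrt_mul (by positivity)]
  have e1 : Q v x * Q v y * Q v z * (Q x y / (Q v x * Q v y)) = Q x y * Q z v := by
    rw [Q_symm z v]; field_simp
  have e2 : Q v x * Q v y * Q v z * (Q x z / (Q v x * Q v z)) = Q x z * Q y v := by
    rw [Q_symm y v]; field_simp
  have e3 : Q v x * Q v y * Q v z * (Q z y / (Q v z * Q v y)) = Q x v * Q y z := by
    rw [Q_symm x v, Q_symm y z]; field_simp
  rw [e1, e2, e3]
  exact h

theorem del_le {v x y : V} (hv : v ∈ Hyp) (hx : x ∈ Cone) (hy : y ∈ Cone) : del v x y ≤ 2 := by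
  unfold del
  have h := Q_tri hx hv hy
  have ha := Q_pos_hyp hv hx
  have hb := Q_pos_hyp hv hy
  rw [Real.sqrt_le_left (by norm_num), div_le_iff₀ (by positivity)]
  rw [Q_symm x v] at h
  linarith

theorem ratio {C r : ℝ} {x p q y : V} (hx : x ∈ Hyp) (hp : p ∈ Hyp) (hq : q ∈ Hyp)
    (hy : y ∈ Cone) (h1 : Bt C x p y) (h2 : Bt C x q y) (h3 : Q x p ≤ r * Q x q)
    (h4 : Q x q ≤ r * Q x p) : Q p q ≤ 4 * C * r := by
  have hxy := Q_pos_hyp hx hy
  have hxp := Q_pos_hyp hx (hyp_cone hp)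
  have hxq := Q_pos_hyp hx (hyp_cone hq)
  have hpy := Q_pos_hyp hp hy
  have hqy := Q_pos_hyp hq hy
  have hpq := Q_nonneg (hyp_cone hp) (hyp_cone hq)
  unfold Bt at h1 h2
  have hC : 0 < C := by
    by_contra hn
    have : C * Q x y ≤ 0 := mul_nonpos_of_nonpos_of_nonneg (not_lt.1 hn) hxy.le
    have : 0 < Q x p * Q p y := by positivity
    linarith
  have hr : 0 < r := by
    by_contra hn
    have : r * Q x q ≤ 0 := mul_nonpos_of_nonpos_of_nonneg (not_lt.1 hn) hxq.le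
    linarith
  have h := ptolemy (hyp_cone hp) (hyp_cone hq) (hyp_cone hx) hy
  -- √(Q p q * Q x y) ≤ √(Q p x * Q q y) + √(Q p y * Q q x)
  have e1 : Q p x * Q q y ≤ C * r * Q x y := by
    rw [Q_symm p x]
    calc Q x p * Q q y ≤ r * Q x q * Q q y := mul_le_mul_of_nonneg_right h3 hqy.le
      _ = r * (Q x q * Q q y) := by ring
      _ ≤ r * (C * Q x y) := mul_le_mul_of_nonneg_left h2 hr.le
      _ = _ := by ring
  have e2 : Q p y * Q q x ≤ C * r * Q x y := by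
    rw [Q_symm q x]
    calc Q p y * Q x q ≤ Q p y * (r * Q x p) := mul_le_mul_of_nonneg_left h4 hpy.le
      _ = r * (Q x p * Q p y) := by ring
      _ ≤ r * (C * Q x y) := mul_le_mul_of_nonneg_left h1 hr.le
      _ = _ := by ring
  have s1 := Real.sqrt_le_sqrt e1
  have s2 := Real.sqrt_le_sqrt e2
  have h5 : Real.sqrt (Q p q * Q x y) ≤ 2 * Real.sqrt (C * r * Q x y) := by linarith
  rw [Real.sqrt_le_left (by positivity)] at h5
  have e := Real.mul_self_sqrt (show 0 ≤ C * r * Q x y by positivity)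
  have h6 : Q p q * Q x y ≤ (4 * C * r) * Q x y := by nlinarith
  exact le_of_mul_le_mul_right h6 hxy

theorem shadow {C : ℝ} {v z x y : V} (hv : v ∈ Hyp) (hz : z ∈ Hyp) (hx : x ∈ Cone)
    (hy : y ∈ Cone) (h1 : Bt C v z x) (h2 : Bt C v z y) :
    Q x y * (Q v z) ^ 2 ≤ 4 * C * (Q v x * Q v y) := by
  have hvx := Q_pos_hyp hv hx
  have hvy := Q_pos_hyp hv hy
  have hvz := Q_pos_hyp hv (hyp_cone hz)
  have hzx := Q_pos_hyp hz hx
  have hzy := Q_pos_hyp hz hy
  have hxy := Q_nonneg hx hy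
  unfold Bt at h1 h2
  have hC : 0 < C := by
    by_contra hn
    have : C * Q v x ≤ 0 := mul_nonpos_of_nonpos_of_nonneg (not_lt.1 hn) hvx.le
    have : 0 < Q v z * Q z x := by positivity
    linarith
  have h := ptolemy hx hy (hyp_cone hv) (hyp_cone hz)
  -- √(Q x y * Q v z) ≤ √(Q x v * Q y z) + √(Q x z * Q y v)
  have e1 : Q v z * (Q x v * Q y z) ≤ C * (Q v x * Q v y) := by
    rw [Q_symm x v, Q_symm y z]
    calc _ = Q v x * (Q v z * Q z y) := by ring
      _ ≤ Q v x * (C * Q v y) := mul_le_mul_of_nonneg_left h2 hvx.le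
      _ = _ := by ring
  have e2 : Q v z * (Q x z * Q y v) ≤ C * (Q v x * Q v y) := by
    rw [Q_symm x z, Q_symm y v]
    calc _ = Q v y * (Q v z * Q z x) := by ring
      _ ≤ Q v y * (C * Q v x) := mul_le_mul_of_nonneg_left h1 hvy.le
      _ = _ := by ring
  have hs : 0 ≤ Real.sqrt (Q v z) := Real.sqrt_nonneg _
  have h3 : Real.sqrt (Q v z) * Real.sqrt (Q x y * Q v z)
      ≤ 2 * Real.sqrt (C * (Q v x * Q v y)) := by
    have h4 := mul_le_mul_of_nonneg_left h hs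
    rw [mul_add, ← Real.sqrt_mul hvz.le, ← Real.sqrt_mul hvz.le, ← Real.sqrt_mul hvz.le] at h4
    rw [← Real.sqrt_mul hvz.le]
    have s1 := Real.sqrt_le_sqrt e1
    have s2 := Real.sqrt_le_sqrt e2
    linarith
  rw [← Real.sqrt_mul hvz.le, Real.sqrt_le_left (by positivity)] at h3
  have e := Real.mul_self_sqrt (show 0 ≤ C * (Q v x * Q v y) by positivity)
  nlinarith

theorem shadow_conv {C : ℝ} {v z x y : V} (hv : v ∈ Hyp) (hz : z ∈ Hyp) (hx : x ∈ Cone)
    (hy : y ∈ Cone) (h1 : Bt C v z x) (h2 : Q x y * (Q v z) ^ 2 ≤ C * (Q v x * Q v y)) :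
    Bt (4 * C) v z y := by
  have hvx := Q_pos_hyp hv hx
  have hvy := Q_pos_hyp hv hy
  have hvz := Q_pos_hyp hv (hyp_cone hz)
  have hzx := Q_pos_hyp hz hx
  have hzy := Q_pos_hyp hz hy
  unfold Bt at h1 ⊢
  have hC : 0 < C := by
    by_contra hn
    have : C * Q v x ≤ 0 := mul_nonpos_of_nonpos_of_nonneg (not_lt.1 hn) hvx.le
    have : 0 < Q v z * Q z x := by positivity
    linarith
  -- ptolemy for z y ; x v :  √(Q z y * Q x v) ≤ √(Q z x * Q y v) + √(Q z v * Q y x)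
  have h := ptolemy (hyp_cone hz) hy hx (hyp_cone hv)
  have e1 : Q v z * (Q z x * Q y v) ≤ C * (Q v x * Q v y) := by
    rw [Q_symm y v]
    calc _ = Q v y * (Q v z * Q z x) := by ring
      _ ≤ Q v y * (C * Q v x) := mul_le_mul_of_nonneg_left h1 hvy.le
      _ = _ := by ring
  have e2 : Q v z * (Q z v * Q y x) ≤ C * (Q v x * Q v y) := by
    rw [Q_symm z v, Q_symm y x]
    calc _ = Q x y * (Q v z) ^ 2 := by ring
      _ ≤ _ := h2
  have hs : 0 ≤ Real.sqrt (Q v z) := Real.sqrt_nonneg _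
  have h3 : Real.sqrt (Q v z) * Real.sqrt (Q z y * Q x v)
      ≤ 2 * Real.sqrt (C * (Q v x * Q v y)) := by
    have h4 := mul_le_mul_of_nonneg_left h hs
    rw [mul_add, ← Real.sqrt_mul hvz.le, ← Real.sqrt_mul hvz.le, ← Real.sqrt_mul hvz.le] at h4
    rw [← Real.sqrt_mul hvz.le]
    have s1 := Real.sqrt_le_sqrt e1
    have s2 := Real.sqrt_le_sqrt e2
    linarith
  rw [← Real.sqrt_mul hvz.le, Real.sqrt_le_left (by positivity)] at h3
  have e := Real.mul_self_sqrt (show 0 ≤ C * (Q v x * Q v y) by positivity)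
  have h5 : (Q v z * Q z y) * Q v x ≤ (4 * C * Q v y) * Q v x := by
    rw [Q_symm x v] at h3
    nlinarith
  exact le_of_mul_le_mul_right h5 hvx

theorem Bt_move {C r : ℝ} {x x' z z' y : V} (hx : x ∈ Hyp) (hx' : x' ∈ Hyp) (hz : z ∈ Hyp)
    (hz' : z' ∈ Hyp) (hy : y ∈ Cone) (h1 : Q x x' ≤ r) (h2 : Q z z' ≤ r) (h : Bt C x z y) :
    Bt (256 * r ^ 4 * C) x' z' y := by
  unfold Bt at h ⊢
  have hr : 1 ≤ r := (Q_one_le hx hx').trans h1
  have hxz := Q_pos_hyp hx (hyp_cone hz)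
  have hzy := Q_pos_hyp hz hy
  have hxy := Q_pos_hyp hx hy
  have hx'y := Q_pos_hyp hx' hy
  have hC : 0 < C := by
    by_contra hn
    have : C * Q x y ≤ 0 := mul_nonpos_of_nonpos_of_nonneg (not_lt.1 hn) hxy.le
    have : 0 < Q x z * Q z y := by positivity
    linarith
  have a1 : Q x' z ≤ 4 * (r * Q x z) := by
    refine (Q_tri (hyp_cone hx') hx (hyp_cone hz)).trans ?_
    rw [Q_symm x' x]
    exact mul_le_mul_of_nonneg_left (mul_le_mul_of_nonneg_right h1 hxz.le) (by norm_num)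
  have a2 : Q x' z' ≤ 4 * (Q x' z * r) := by
    refine (Q_tri (hyp_cone hx') hz (hyp_cone hz')).trans ?_
    exact mul_le_mul_of_nonneg_left (mul_le_mul_of_nonneg_left h2
      (Q_nonneg (hyp_cone hx') (hyp_cone hz))) (by norm_num)
  have a3 : Q x' z' ≤ 16 * r ^ 2 * Q x z := by nlinarith
  have a4 : Q z' y ≤ 4 * (r * Q z y) := by
    refine (Q_tri (hyp_cone hz') hz hy).trans ?_
    rw [Q_symm z' z]
    exact mul_le_mul_of_nonneg_left (mul_le_mul_of_nonneg_right h2 hzy.le) (by norm_num)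
  have a5 : Q x y ≤ 4 * (r * Q x' y) := by
    refine (Q_tri (hyp_cone hx) hx' hy).trans ?_
    exact mul_le_mul_of_nonneg_left (mul_le_mul_of_nonneg_right h1 hx'y.le) (by norm_num)
  calc Q x' z' * Q z' y ≤ (16 * r ^ 2 * Q x z) * (4 * (r * Q z y)) :=
        mul_le_mul a3 a4 (Q_pos_hyp hz' hy).le (by positivity)
    _ = 64 * r ^ 3 * (Q x z * Q z y) := by ring
    _ ≤ 64 * r ^ 3 * (C * Q x y) := mul_le_mul_of_nonneg_left h (by positivity)
    _ = 64 * r ^ 3 * C * Q x y := by ring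
    _ ≤ 64 * r ^ 3 * C * (4 * (r * Q x' y)) := mul_le_mul_of_nonneg_left a5 (by positivity)
    _ = _ := by ring

end Pool.Agent.Work.MP_d3656f_al
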