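import Mathlib
import Pool.Agent.Work.MP_d3656f_al.M.Ptol

/-!
# M/Act : basic facts on a model `M : Model G`

Everything is a direct computation from the definitions.
* `act_mul`, `act_one`, linearity: `rho` is a homomorphism, `Matrix.mulVec` is linear.
* `act_cone`: for `x ∈ Cone`, `Q (act g x) (act g x) = Q x x ≥ 0` and
  `Q (pt g) (act g x) = Q base x = x 2 > 0` where `pt g ∈ Hyp` (by `fut`, `pres`). If
  `(act g x) 2 ≤ 0` then, as `act g x ≠ 0` and `Q (act g x) (act g x) ≥ 0`, `- act g x ∈ Cone`, so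
  `Q (pt g) (act g x) ≤ 0`, a contradiction.
* `det3_act`: `det3 x y z` is the determinant of the matrix with rows `x, y, z`.
* `bact`: `act g` sends the null vector `x ∈ Bd` to a positive multiple of `bact g x ∈ Bd`.
* `cocpt'`: the constant of `cocpt`.
* `ball_finite`: `q u g = q 1 (u⁻¹ g)`, and `g ↦ u⁻¹ g` is a bijection.
* `eq_of_pt`: `pt u = pt v` gives `q 1 (w^n) = 1` for `w = u⁻¹ v` and all `n`, so the powers of
  `w` form a finite set, so `w` has finite order, so `w = 1` by `tf`.
* `three_fix`: let `act g a = α a`, `act g b = β b`, `act g c = γ c` with positive factors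
  (`a, b, c ∈ Bd` different). From `Q (act g a) (act g b) = Q a b > 0` we get `α β = 1`,
  similarly `β γ = 1`, `α γ = 1`, so `α = β = γ = 1`. As `a, b, c` span the space
  (`det3 a b c ≠ 0` by `det3_ne`), `rho g = 1`, `pt g = pt 1`, `g = 1`.
* `det3_ne`: for different `a b c ∈ Bd` one has `(det3 a b c)^2 = 2 Q a b Q b c Q a c`
  (Gram determinant; check: both sides are polynomials, use `a 0^2 + a 1^2 = 1` etc.; if a direct
  verification is unpleasant use the coordinate of `O/Coord`: not needed here).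
* `inf`: `G` is infinite: otherwise `q 1 g` is bounded by some `K`, while the points
  `(sinh t, 0, cosh t) ∈ Hyp` satisfy `cosh t = Q x base ≤ 4 Q x (pt g) q g 1 ≤ 4 R K`.
-/

set_option autoImplicit false

namespace Pool.Agent.Work.MP_d3656f_al

private theorem det3_gram (a b c : V) : (det3 a b c) ^ 2 =
    Q a a * Q b b * Q c c + 2 * (Q a b * Q b c * Q a c) - Q a a * Q b c ^ 2
      - Q b b * Q a c ^ 2 - Q c c * Q a b ^ 2 := by
  unfold det3 Q; ring

private theorem det3_sq {a b c : V} (ha : a ∈ Bd) (hb : b ∈ Bd) (hc : c ∈ Bd) :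
    (det3 a b c) ^ 2 = 2 * (Q a b * Q b c * Q a c) := by
  rw [det3_gram, ha.1, hb.1, hc.1]; ring

theorem det3_ne {a b c : V} (ha : a ∈ Bd) (hb : b ∈ Bd) (hc : c ∈ Bd) (h1 : a ≠ b) (h2 : b ≠ c)
    (h3 : a ≠ c) : det3 a b c ≠ 0 := by
  have h := det3_sq ha hb hc
  have hp : 0 < 2 * (Q a b * Q b c * Q a c) := by
    have e1 := Q_bd_pos ha hb h1
    have e2 := Q_bd_pos hb hc h2
    have e3 := Q_bd_pos ha hc h3
    positivity
  intro h0
  rw [h0] at h
  have h4 : (0 : ℝ) ^ 2 = 0 := by norm_num
  linarith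

theorem det3_rot (a b c : V) : det3 b c a = det3 a b c := by
  unfold det3; ring

theorem det3_swap (a b c : V) : det3 b a c = - det3 a b c := by
  unfold det3; ring

theorem det3_swap' (a b c : V) : det3 a c b = - det3 a b c := by
  unfold det3; ring

/-- If the determinant is not zero then the three points are different. -/
theorem ne_of_det3 {a b c : V} (h : det3 a b c ≠ 0) : a ≠ b ∧ b ≠ c ∧ a ≠ c := by
  refine ⟨?_, ?_, ?_⟩
  · rintro rfl; apply h; unfold det3; ring
  · rintro rfl; apply h; unfold det3; ring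
  · rintro rfl; apply h; unfold det3; ring

/-- Vectors in the span of three independent vectors. -/
private theorem span3 {a b c : V} (h : det3 a b c ≠ 0) (f : V → V)
    (hadd : ∀ x y, f (x + y) = f x + f y) (hsmul : ∀ (t : ℝ) x, f (t • x) = t • f x)
    (ea : f a = a) (eb : f b = b) (ec : f c = c) (x : V) : f x = x := by
  have key : x = (det3 x b c / det3 a b c) • a + (det3 a x c / det3 a b c) • b
      + (det3 a b x / det3 a b c) • c := by
    ext i
    have h1 : x i * det3 a b c = det3 x b c * a i + det3 a x c * b i + det3 a b x * c i := by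
      unfold det3
      fin_cases i <;> simp <;> ring
    simp only [Pi.add_apply, Pi.smul_apply, smul_eq_mul]
    field_simp
    linarith
  have h2 : f x = (det3 x b c / det3 a b c) • a + (det3 a x c / det3 a b c) • b
      + (det3 a b x / det3 a b c) • c := by
    conv_lhs => rw [key]
    rw [hadd, hadd, hsmul, hsmul, hsmul, ea, eb, ec]
  rw [h2, ← key]

namespace Model

variable {G : Type} [Group G] (M : Model G)

theorem act_one (x : V) : M.act 1 x = x := by
  unfold act
  rw [map_one, Matrix.one_mulVec]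

theorem act_mul (g h : G) (x : V) : M.act (g * h) x = M.act g (M.act h x) := by
  unfold act
  rw [map_mul, Matrix.mulVec_mulVec]

theorem act_smul (g : G) (t : ℝ) (x : V) : M.act g (t • x) = t • M.act g x := by
  unfold act
  rw [Matrix.mulVec_smul]

theorem act_add (g : G) (x y : V) : M.act g (x + y) = M.act g x + M.act g y := by
  unfold act
  rw [Matrix.mulVec_add]

theorem act_Q (g : G) (x y : V) : Q (M.act g x) (M.act g y) = Q x y := M.pres g x y

theorem act_pt (g h : G) : M.act g (M.pt h) = M.pt (g * h) := by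
  unfold pt
  rw [act_mul]

theorem pt_one : M.pt 1 = base := by
  unfold pt
  rw [act_one]

theorem pt_hyp (g : G) : M.pt g ∈ Hyp := by
  refine ⟨?_, M.fut g⟩
  unfold pt
  rw [act_Q]
  exact base_hyp.1

theorem pt_cone (g : G) : M.pt g ∈ Cone := hyp_cone (M.pt_hyp g)

theorem act_cone (g : G) {x : V} (hx : x ∈ Cone) : M.act g x ∈ Cone := by
  have h1 : 0 < Q (M.pt g) (M.act g x) := by
    unfold pt
    rw [act_Q, Q_base_left]
    exact hx.2
  have h2 : 0 ≤ Q (M.act g x) (M.act g x) := by
    rw [act_Q]; exact hx.1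
  refine ⟨h2, ?_⟩
  by_contra hneg
  rcases lt_or_eq_of_le (not_lt.1 hneg) with h3 | h3
  · have h4 : (-1 : ℝ) • M.act g x ∈ Cone := by
      refine ⟨?_, ?_⟩
      · rw [Q_smul_left, Q_smul_right]; linarith
      · simp only [Pi.smul_apply, smul_eq_mul]; linarith
    have h5 := Q_nonneg (M.pt_cone g) h4
    rw [Q_smul_right] at h5
    linarith
  · have h6 : (M.act g x) 0 = 0 ∧ (M.act g x) 1 = 0 := by
      unfold Q at h2
      rw [h3] at h2
      constructor <;> nlinarith [sq_nonneg ((M.act g x) 0), sq_nonneg ((M.act g x) 1)]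
    have h7 : M.act g x = 0 := by
      ext i
      fin_cases i
      · exact h6.1
      · exact h6.2
      · exact h3
    rw [h7] at h1
    unfold Q at h1
    simp at h1

theorem act_hyp (g : G) {x : V} (hx : x ∈ Hyp) : M.act g x ∈ Hyp :=
  ⟨by rw [act_Q]; exact hx.1, (M.act_cone g (hyp_cone hx)).2⟩

theorem q_left (g u v : G) : M.q (g * u) (g * v) = M.q u v := by
  unfold q
  rw [← act_pt, ← act_pt, act_Q]

theorem q_symm (u v : G) : M.q u v = M.q v u := Q_symm _ _

theorem q_self (u : G) : M.q u u = 1 := (M.pt_hyp u).1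

theorem one_le_q (u v : G) : 1 ≤ M.q u v := Q_one_le (M.pt_hyp u) (M.pt_hyp v)

theorem q_tri (u v w : G) : M.q u w ≤ 4 * (M.q u v * M.q v w) :=
  Q_tri (M.pt_cone u) (M.pt_hyp v) (M.pt_cone w)

theorem ball_finite (u : G) (R : ℝ) : {g : G | M.q u g ≤ R}.Finite := by
  have h := M.proper R
  have h2 : {g : G | M.q u g ≤ R} ⊆ (fun g => u * g) '' {g : G | Q base ((M.rho g).mulVec base) ≤ R} := by
    intro g hg
    refine ⟨u⁻¹ * g, ?_, by group⟩
    have h3 : M.q 1 (u⁻¹ * g) = M.q u g := by
      rw [← M.q_left u 1 (u⁻¹ * g), mul_one, mul_inv_cancel_left]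
    have h4 : M.q 1 (u⁻¹ * g) ≤ R := by rw [h3]; exact hg
    unfold q at h4
    rw [pt_one] at h4
    exact h4
  exact (h.image _).subset h2

theorem cocpt' : ∃ R : ℝ, 1 ≤ R ∧ ∀ x ∈ Hyp, ∃ g : G, Q x (M.pt g) ≤ R := by
  obtain ⟨R, hR⟩ := M.cocpt
  refine ⟨max R 1, le_max_right _ _, fun x hx => ?_⟩
  obtain ⟨g, hg⟩ := hR x hx
  exact ⟨g, le_trans hg (le_max_left _ _)⟩

/-- An element with bounded powers is trivial. -/
private theorem eq_one_of_bdd {w : G} {R : ℝ} (h : ∀ n : ℕ, M.q 1 (w ^ n) ≤ R) : w = 1 := by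
  by_contra hw
  have hinj : Function.Injective fun n : ℕ => w ^ n := by
    intro m n hmn
    simp only at hmn
    rcases lt_trichotomy m n with h1 | h1 | h1
    · exfalso
      apply M.tf w hw (n - m) (by omega)
      have : w ^ n = w ^ m * w ^ (n - m) := by rw [← pow_add]; congr 1; omega
      rw [this] at hmn
      exact mul_left_cancel (by rw [mul_one]; exact hmn.symm)
    · exact h1
    · exfalso
      apply M.tf w hw (m - n) (by omega)
      have : w ^ m = w ^ n * w ^ (m - n) := by rw [← pow_add]; congr 1; omega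
      rw [this] at hmn
      exact mul_left_cancel (by rw [mul_one]; exact hmn)
  exact Set.infinite_of_injective_forall_mem hinj (fun n => h n) (M.ball_finite 1 R)

theorem eq_of_pt {u v : G} (h : M.pt u = M.pt v) : u = v := by
  have h1 : M.pt (u⁻¹ * v) = base := by
    rw [← act_pt, ← h, act_pt, inv_mul_cancel, pt_one]
  have h2 : ∀ n : ℕ, M.pt ((u⁻¹ * v) ^ n) = base := by
    intro n
    induction n with
    | zero => rw [pow_zero, pt_one]
    | succ n ih =>
      rw [pow_succ, ← act_pt, h1]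
      exact ih
  have h3 : u⁻¹ * v = 1 := by
    refine M.eq_one_of_bdd (R := 1) fun n => ?_
    unfold q
    rw [h2, pt_one]
    exact base_hyp.1.le
  exact (inv_mul_eq_one.1 h3)

theorem inf (M : Model G) : Infinite G := by
  by_contra hfin
  rw [not_infinite_iff_finite] at hfin
  obtain ⟨R, hR1, hR⟩ := M.cocpt'
  obtain ⟨K, hK⟩ : ∃ K : ℝ, ∀ g : G, M.q g 1 ≤ K := by
    have := (Set.finite_range fun g : G => M.q g 1).bddAbove
    obtain ⟨K, hK⟩ := this
    exact ⟨K, fun g => hK ⟨g, rfl⟩⟩
  have hK1 : 1 ≤ K := (M.one_le_q 1 1).trans (hK 1)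
  -- a point of large time coordinate
  set T : ℝ := 4 * (R * K) + 1 with hT
  have hT1 : 1 ≤ T := by nlinarith
  let x : V := ![Real.sqrt (T ^ 2 - 1), 0, T]
  have hx : x ∈ Hyp := by
    constructor
    · have h1 : Real.sqrt (T ^ 2 - 1) * Real.sqrt (T ^ 2 - 1) = T ^ 2 - 1 :=
        Real.mul_self_sqrt (by nlinarith)
      simp only [x, Q, Matrix.cons_val_zero, Matrix.cons_val_one, Matrix.cons_val]
      rw [h1]; ring
    · simp only [x, Matrix.cons_val]; linarith
  obtain ⟨g, hg⟩ := hR x hx
  have h1 : Q x base ≤ 4 * (Q x (M.pt g) * Q (M.pt g) base) :=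
    Q_tri (hyp_cone hx) (M.pt_hyp g) (hyp_cone base_hyp)
  have h2 : Q (M.pt g) base ≤ K := by
    have := hK g
    unfold q at this
    rwa [pt_one] at this
  have h3 : Q x base = T := by rw [Q_base_right]; simp [x]
  have h4 : Q x (M.pt g) * Q (M.pt g) base ≤ R * K :=
    mul_le_mul hg h2 (Q_nonneg (M.pt_cone g) (hyp_cone base_hyp)) (by linarith)
  rw [h3] at h1
  linarith

/-- `act g x` is a positive multiple of `bact g x`. -/
theorem act_eq_bact (g : G) {x : V} (hx : x ∈ Bd) :
    ∃ t : ℝ, 0 < t ∧ M.act g x = t • M.bact g x := by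
  have h := (M.act_cone g (bd_cone hx)).2
  refine ⟨(M.act g x) 2, h, ?_⟩
  unfold bact nrm
  rw [smul_smul, mul_inv_cancel₀ h.ne', one_smul]

theorem bact_mem (g : G) {x : V} (hx : x ∈ Bd) : M.bact g x ∈ Bd := by
  unfold bact
  exact nrm_mem (by rw [act_Q]; exact hx.1) (M.act_cone g (bd_cone hx)).2

theorem bact_one {x : V} (hx : x ∈ Bd) : M.bact 1 x = x := by
  unfold bact
  rw [act_one, nrm_bd hx]

theorem bact_mul (g h : G) {x : V} (hx : x ∈ Bd) : M.bact (g * h) x = M.bact g (M.bact h x) := by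
  obtain ⟨t, ht, e⟩ := M.act_eq_bact h hx
  conv_lhs => unfold bact
  rw [act_mul, e, act_smul, nrm_smul ht]
  rfl

theorem bact_inj (g : G) {x y : V} (hx : x ∈ Bd) (hy : y ∈ Bd) (h : M.bact g x = M.bact g y) :
    x = y := by
  have h1 := congrArg (M.bact g⁻¹) h
  rw [← M.bact_mul g⁻¹ g hx, ← M.bact_mul g⁻¹ g hy, inv_mul_cancel, M.bact_one hx,
    M.bact_one hy] at h1
  exact h1

theorem det3_act (g : G) (x y z : V) : det3 (M.act g x) (M.act g y) (M.act g z) = det3 x y z := by
  have h : ∀ a b c : V, det3 a b c = Matrix.det (Matrix.of ![a, b, c]) := by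
    intro a b c
    rw [Matrix.det_fin_three]
    simp only [Matrix.of_apply, Matrix.cons_val_zero, Matrix.cons_val_one, Matrix.cons_val]
    unfold det3
    ring
  rw [h, h]
  have h2 : (Matrix.of ![M.act g x, M.act g y, M.act g z] : Matrix (Fin 3) (Fin 3) ℝ)
      = Matrix.of ![x, y, z] * (M.rho g).transpose := by
    ext i j
    unfold act
    rw [Matrix.mul_apply]
    fin_cases i <;>
      simp [Matrix.mulVec, dotProduct, Fin.sum_univ_three, Matrix.transpose_apply, mul_comm]
  rw [h2, Matrix.det_mul, Matrix.det_transpose, M.det_one, mul_one]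

private theorem det3_smul (r s t : ℝ) (x y z : V) :
    det3 (r • x) (s • y) (t • z) = r * s * t * det3 x y z := by
  unfold det3
  simp only [Pi.smul_apply, smul_eq_mul]
  ring

theorem det3_bact (g : G) {x y z : V} (hx : x ∈ Bd) (hy : y ∈ Bd) (hz : z ∈ Bd) :
    (0 < det3 (M.bact g x) (M.bact g y) (M.bact g z)) ↔ 0 < det3 x y z := by
  obtain ⟨r, hr, er⟩ := M.act_eq_bact g hx
  obtain ⟨s, hs, es⟩ := M.act_eq_bact g hy
  obtain ⟨t, ht, et⟩ := M.act_eq_bact g hz
  rw [← M.det3_act g x y z, er, es, et, det3_smul]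
  have hp : 0 < r * s * t := by positivity
  constructor
  · intro h; exact mul_pos hp h
  · intro h; exact (mul_pos_iff_of_pos_left hp).1 h

/-- A group element with three fixed points on the circle is trivial. -/
theorem three_fix {g : G} {a b c : V} (ha : a ∈ Bd) (hb : b ∈ Bd) (hc : c ∈ Bd) (h1 : a ≠ b)
    (h2 : b ≠ c) (h3 : a ≠ c) (ga : M.bact g a = a) (gb : M.bact g b = b) (gc : M.bact g c = c) :
    g = 1 := by
  obtain ⟨r, hr, er⟩ := M.act_eq_bact g ha
  obtain ⟨s, hs, es⟩ := M.act_eq_bact g hb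
  obtain ⟨t, ht, et⟩ := M.act_eq_bact g hc
  rw [ga] at er
  rw [gb] at es
  rw [gc] at et
  have e1 : r * s = 1 := by
    have h := M.act_Q g a b
    rw [er, es, Q_smul_left, Q_smul_right] at h
    have hp := Q_bd_pos ha hb h1
    have : (r * s) * Q a b = 1 * Q a b := by linarith
    exact mul_right_cancel₀ hp.ne' this
  have e2 : s * t = 1 := by
    have h := M.act_Q g b c
    rw [es, et, Q_smul_left, Q_smul_right] at h
    have hp := Q_bd_pos hb hc h2
    have : (s * t) * Q b c = 1 * Q b c := by linarith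
    exact mul_right_cancel₀ hp.ne' this
  have e3 : r * t = 1 := by
    have h := M.act_Q g a c
    rw [er, et, Q_smul_left, Q_smul_right] at h
    have hp := Q_bd_pos ha hc h3
    have : (r * t) * Q a c = 1 * Q a c := by linarith
    exact mul_right_cancel₀ hp.ne' this
  have hrt : r = s := by
    have : r * t = s * t := by rw [e3, e2]
    exact mul_right_cancel₀ ht.ne' this
  have hst : s = t := by
    have : r * s = r * t := by rw [e1, e3]
    exact mul_left_cancel₀ hr.ne' this
  have hr1 : r = 1 := by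
    rw [← hrt] at e1
    nlinarith
  have hs1 : s = 1 := by rw [← hrt, hr1]
  have ht1 : t = 1 := by rw [← hst, hs1]
  rw [hr1, one_smul] at er
  rw [hs1, one_smul] at es
  rw [ht1, one_smul] at et
  have hall := span3 (det3_ne ha hb hc h1 h2 h3) (M.act g) (M.act_add g) (M.act_smul g) er es et
  apply M.eq_of_pt
  rw [pt_one]
  exact hall base

/-- Betweenness is invariant under the group, with orbit points and boundary points. -/
theorem Bt_act_bd {C : ℝ} (g x z : G) {y : V} (hy : y ∈ Bd) :
    Bt C (M.pt (g * x)) (M.pt (g * z)) (M.bact g y) ↔ Bt C (M.pt x) (M.pt z) y := by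
  obtain ⟨t, ht, e⟩ := M.act_eq_bact g hy
  rw [← Bt_smul_right ht, ← e, ← act_pt, ← act_pt]
  unfold Bt
  rw [act_Q, act_Q, act_Q]

theorem Bt_act_pt {C : ℝ} (g x z y : G) :
    Bt C (M.pt (g * x)) (M.pt (g * z)) (M.pt (g * y)) ↔ Bt C (M.pt x) (M.pt z) (M.pt y) := by
  rw [← act_pt, ← act_pt, ← act_pt]
  unfold Bt
  rw [act_Q, act_Q, act_Q]

theorem Bt_act_bd2 {C : ℝ} (g z : G) {x y : V} (hx : x ∈ Bd) (hy : y ∈ Bd) :
    Bt C (M.bact g x) (M.pt (g * z)) (M.bact g y) ↔ Bt C x (M.pt z) y := by
  obtain ⟨t, ht, e⟩ := M.act_eq_bact g hy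
  obtain ⟨s, hs, e'⟩ := M.act_eq_bact g hx
  rw [← Bt_smul_right ht, ← e, ← Bt_smul_left hs, ← e', ← act_pt]
  unfold Bt
  rw [act_Q, act_Q, act_Q]

/-- The action on the circle is continuous. -/
theorem bact_cont (g : G) : ContinuousOn (M.bact g) Bd := by
  have hc : Continuous (M.act g) := by
    unfold act
    exact Continuous.matrix_mulVec continuous_const continuous_id
  have h2 : Continuous fun x => (M.act g x) 2 := (continuous_apply 2).comp hc
  unfold bact nrm
  exact (h2.continuousOn.inv₀ fun x hx => ((M.act_cone g (bd_cone hx)).2).ne').smul hc.continuousOn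

end Model

end Pool.Agent.Work.MP_d3656f_al
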