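import Mathlib
import Pool.Agent.Work.MP_d3656f_al.M.Act

/-!
# M/CG : coarse geodesics

`cg`: there is `C0 ≥ 1` such that for `x : G`, `y ∈ Hyp ∪ Bd` and every `s ≥ 1` (with
`s ≤ Q (pt x) y` if `y ∈ Hyp`) there is `z : G` with `q x z ≤ C0 s` and
`Q (pt z) y ≤ C0 Q (pt x) y / s` (written without division).

Proof. Write `p = pt x`, `K = Q p y`. It is enough to find `w ∈ Hyp` with `Q p w ≤ 2 s`,
`Q w y ≤ 2 K / s`: then take `z` with `Q w (pt z) ≤ R` (`cocpt'`), and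
`Q p (pt z) ≤ 4 * 2 s * R`, `Q (pt z) y ≤ 4 R * 2 K / s` by `Q_tri`; `C0 = 8 R`.
* `y ∈ Hyp`: `t = s^2 / K`, `w = (p + t y) / √(1 + 2 t K + t^2)`, `t K = s^2`,
  `t ≤ K` as `s ≤ K`. So `Q w w = 1`, `Q p w = (1 + s^2) / √(1 + 2 s^2 + t^2) ≤
  (1 + s^2)/√(1 + 2 s^2) ≤ 2 s` and `Q w y = (K + t) / √(..) ≤ 2 K / √(2 s^2) ≤ 2 K / s`.
* `y ∈ Bd`: `w = s⁻¹ p + ((s - s⁻¹) / (2 K)) y`: `Q w w = s⁻² + 2 s⁻¹ (s - s⁻¹)/(2K) K = 1`,
  `Q p w = s⁻¹ + (s - s⁻¹)/2 ≤ s`, `Q w y = K / s`. Both `w` have positive time coordinate.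

`low`: lower bound `s ≤ 4 C0 q x z` for such `z`, because `K ≤ 4 q x z * Q (pt z) y`.
-/

set_option autoImplicit false

namespace Pool.Agent.Work.MP_d3656f_al

private theorem inter_bd {p y : V} (hp : p ∈ Hyp) (hy : y ∈ Bd) {s : ℝ} (hs : 1 ≤ s) :
    ∃ w ∈ Hyp, Q p w ≤ 2 * s ∧ s * Q w y ≤ 2 * Q p y := by
  have hK := Q_pos_hyp hp (bd_cone hy)
  have hs0 : 0 < s := by linarith
  have hinv : s⁻¹ ≤ 1 := inv_le_one_of_one_le₀ hs
  have hinv0 : 0 < s⁻¹ := by positivity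
  have hyy : Q y y = 0 := hy.1
  have hpp : Q p p = 1 := hp.1
  have hcoef : 0 ≤ (s - s⁻¹) / (2 * Q p y) := by
    apply div_nonneg _ (by positivity)
    linarith
  refine ⟨s⁻¹ • p + ((s - s⁻¹) / (2 * Q p y)) • y, ⟨?_, ?_⟩, ?_, ?_⟩
  · simp only [Q_add_left, Q_add_right, Q_smul_left, Q_smul_right, Q_symm y p, hyy, hpp]
    field_simp
    ring
  · simp only [Pi.add_apply, Pi.smul_apply, smul_eq_mul]
    have h1 : 0 < s⁻¹ * p 2 := mul_pos hinv0 hp.2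
    have h2 : 0 ≤ (s - s⁻¹) / (2 * Q p y) * y 2 := mul_nonneg hcoef (by rw [hy.2]; norm_num)
    linarith
  · simp only [Q_add_right, Q_smul_right, hpp]
    have : (s - s⁻¹) / (2 * Q p y) * Q p y = (s - s⁻¹) / 2 := by field_simp
    rw [this]
    linarith
  · simp only [Q_add_left, Q_smul_left, hyy]
    have : s * (s⁻¹ * Q p y + (s - s⁻¹) / (2 * Q p y) * 0) = Q p y := by field_simp; ring
    rw [this]
    linarith

private theorem inter_hyp {p y : V} (hp : p ∈ Hyp) (hy : y ∈ Hyp) {s : ℝ} (hs : 1 ≤ s)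
    (hsK : s ≤ Q p y) : ∃ w ∈ Hyp, Q p w ≤ 2 * s ∧ s * Q w y ≤ 2 * Q p y := by
  have hK : 0 < Q p y := by linarith
  have hyy : Q y y = 1 := hy.1
  have hpp : Q p p = 1 := hp.1
  set K := Q p y with hKdef
  set t := s ^ 2 / K with ht
  have htK : t * K = s ^ 2 := by rw [ht]; field_simp
  have ht0 : 0 < t := by positivity
  have htle : t ≤ K := by
    rw [ht, div_le_iff₀ hK]; nlinarith
  set D := Real.sqrt (1 + 2 * s ^ 2 + t ^ 2) with hD
  have hD0 : 0 < D := Real.sqrt_pos.2 (by positivity)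
  have hDD : D ^ 2 = 1 + 2 * s ^ 2 + t ^ 2 := Real.sq_sqrt (by positivity)
  have hsD : s ≤ D := by
    apply Real.le_sqrt_of_sq_le
    nlinarith [sq_nonneg t]
  refine ⟨D⁻¹ • (p + t • y), ⟨?_, ?_⟩, ?_, ?_⟩
  · simp only [Q_add_left, Q_add_right, Q_smul_left, Q_smul_right, Q_symm y p, hyy, hpp, ← hKdef]
    have : D⁻¹ * (D⁻¹ * (1 + t * K) + t * (D⁻¹ * (K + t * 1)))
        = (1 + 2 * (t * K) + t ^ 2) / D ^ 2 := by
      field_simp
      ring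
    rw [this, htK, hDD]
    exact div_self (by positivity)
  · simp only [Pi.add_apply, Pi.smul_apply, smul_eq_mul]
    have h1 := hp.2
    have h2 := hy.2
    positivity
  · simp only [Q_add_right, Q_smul_right, hpp, ← hKdef]
    rw [htK, inv_mul_le_iff₀ hD0]
    have h2 : (1 + s ^ 2) ^ 2 ≤ (D * (2 * s)) ^ 2 := by
      have : (D * (2 * s)) ^ 2 = D ^ 2 * (4 * s ^ 2) := by ring
      rw [this, hDD]
      have h1 : 1 ≤ s ^ 2 := by nlinarith
      nlinarith [sq_nonneg t, mul_nonneg (sq_nonneg t) (sq_nonneg s)]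
    exact le_of_sq_le_sq h2 (by positivity)
  · simp only [Q_add_left, Q_smul_left, hyy, ← hKdef]
    have h1 : s * (D⁻¹ * (K + t * 1)) = (s / D) * (K + t) := by field_simp
    rw [h1]
    have h2 : s / D ≤ 1 := (div_le_one hD0).2 hsD
    have h3 : (s / D) * (K + t) ≤ 1 * (K + t) := mul_le_mul_of_nonneg_right h2 (by positivity)
    linarith

namespace Model

variable {G : Type} [Group G] (M : Model G)

theorem cg : ∃ C0 : ℝ, 1 ≤ C0 ∧ ∀ (x : G) (y : V) (s : ℝ), 1 ≤ s →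
    (y ∈ Bd ∨ (y ∈ Hyp ∧ s ≤ Q (M.pt x) y)) →
    ∃ z : G, M.q x z ≤ C0 * s ∧ s ≤ 4 * C0 * M.q x z ∧ s * Q (M.pt z) y ≤ C0 * Q (M.pt x) y ∧
      Bt (C0 ^ 2) (M.pt x) (M.pt z) y := by
  obtain ⟨R, hR1, hR⟩ := M.cocpt'
  refine ⟨8 * R, by linarith, fun x y s hs hy => ?_⟩
  have hyc : y ∈ Cone := by
    rcases hy with h | h
    · exact bd_cone h
    · exact hyp_cone h.1
  obtain ⟨w, hw, hw1, hw2⟩ : ∃ w ∈ Hyp, Q (M.pt x) w ≤ 2 * s ∧ s * Q w y ≤ 2 * Q (M.pt x) y := by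
    rcases hy with h | h
    · exact inter_bd (M.pt_hyp x) h hs
    · exact inter_hyp (M.pt_hyp x) h.1 hs h.2
  obtain ⟨z, hz⟩ := hR w hw
  have hK := Q_pos_hyp (M.pt_hyp x) hyc
  have hwy := Q_pos_hyp hw hyc
  have hzy := Q_pos_hyp (M.pt_hyp z) hyc
  have hxw := Q_pos_hyp (M.pt_hyp x) (hyp_cone hw)
  have h1 : M.q x z ≤ 8 * R * s := by
    have e1 : M.q x z ≤ 4 * (Q (M.pt x) w * Q w (M.pt z)) :=
      Q_tri (M.pt_cone x) hw (M.pt_cone z)
    have e2 : Q (M.pt x) w * Q w (M.pt z) ≤ (2 * s) * R :=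
      mul_le_mul hw1 hz (Q_pos_hyp hw (M.pt_cone z)).le (by positivity)
    linarith
  have h2 : s * Q (M.pt z) y ≤ 8 * R * Q (M.pt x) y := by
    have e1 : Q (M.pt z) y ≤ 4 * (Q (M.pt z) w * Q w y) := Q_tri (M.pt_cone z) hw hyc
    rw [Q_symm (M.pt z) w] at e1
    have e2 : Q w (M.pt z) * Q w y ≤ R * Q w y := mul_le_mul_of_nonneg_right hz hwy.le
    have e3 : s * Q (M.pt z) y ≤ s * (4 * (R * Q w y)) :=
      mul_le_mul_of_nonneg_left (by linarith) (by linarith)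
    have e4 : R * (s * Q w y) ≤ R * (2 * Q (M.pt x) y) :=
      mul_le_mul_of_nonneg_left hw2 (by linarith)
    linarith
  have h3 : Q (M.pt x) y ≤ 4 * (M.q x z * Q (M.pt z) y) :=
    Q_tri (M.pt_cone x) (M.pt_hyp z) hyc
  have hq := M.one_le_q x z
  refine ⟨z, h1, ?_, h2, ?_⟩
  · have e1 : s * Q (M.pt x) y ≤ (4 * (8 * R) * M.q x z) * Q (M.pt x) y := by
      calc s * Q (M.pt x) y ≤ s * (4 * (M.q x z * Q (M.pt z) y)) :=
            mul_le_mul_of_nonneg_left h3 (by linarith)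
        _ = 4 * M.q x z * (s * Q (M.pt z) y) := by ring
        _ ≤ 4 * M.q x z * (8 * R * Q (M.pt x) y) :=
            mul_le_mul_of_nonneg_left h2 (by positivity)
        _ = _ := by ring
    exact le_of_mul_le_mul_right e1 hK
  · unfold Bt
    have hs0 : 0 < s := by linarith
    have e1 : s * (Q (M.pt x) (M.pt z) * Q (M.pt z) y) ≤ s * ((8 * R) ^ 2 * Q (M.pt x) y) := by
      calc s * (Q (M.pt x) (M.pt z) * Q (M.pt z) y)
          = M.q x z * (s * Q (M.pt z) y) := by unfold q; ring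
        _ ≤ (8 * R * s) * (8 * R * Q (M.pt x) y) :=
            mul_le_mul h1 h2 (by positivity) (by positivity)
        _ = _ := by ring
    exact le_of_mul_le_mul_left e1 hs0

/-- Every element of the circle is a limit of orbit points in the strong sense. -/
theorem cg_bd : ∃ C0 : ℝ, 1 ≤ C0 ∧ ∀ ξ ∈ Bd, ∀ s : ℝ, 1 ≤ s →
    ∃ z : G, M.q 1 z ≤ C0 * s ∧ s ≤ C0 * M.q 1 z ∧ Bt C0 base (M.pt z) ξ := by
  obtain ⟨C0, hC0, h⟩ := M.cg
  refine ⟨4 * C0 ^ 2, by nlinarith, fun ξ hξ s hs => ?_⟩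
  obtain ⟨z, h1, h2, -, h4⟩ := h 1 ξ s hs (Or.inl hξ)
  have hq := M.one_le_q 1 z
  refine ⟨z, ?_, ?_, ?_⟩
  · refine h1.trans (mul_le_mul_of_nonneg_right ?_ (by linarith))
    nlinarith
  · refine h2.trans (mul_le_mul_of_nonneg_right ?_ (by linarith))
    nlinarith
  · rw [M.pt_one] at h4
    exact Bt_mono (by nlinarith) (hyp_cone base_hyp) (bd_cone hξ) h4

end Model

end Pool.Agent.Work.MP_d3656f_al
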